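import Pool.Agent.Y307.PCD.Fin

/-!
# The rank-one convex hull of the planar stationarity inclusion set: dense failure

In every dimension `n ≥ 10`, every strictly polyconvex function can be changed inside an
arbitrarily small ball, by an arbitrarily small amount in `C¹`, without leaving its smoothness class
and its class of strict or strong polyconvexity, so that the rank-one convex hull of
`K_R = K_f ∩ B̄_R(0)` is strictly larger than `K_R`, for all large `R`. For every `R > 0` there is a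
smooth strongly polyconvex function with this property for this `R`.

The definitions are in `Pool.Agent.Y307.PCD.Defs` and `Pool.Agent.Y307.PCD.Fin`.
-/

set_option autoImplicit false
open Set Filter Topology
open Pool.Agent.Y307.PCD

namespace Pool.Agent.Results.MP_f3a7de_an.DenseFailure

/-- The sum of the squares of all minors. -/
noncomputable def sumSq {n : ℕ} (X : Fin n → Fin 2 → ℝ) : ℝ := ∑ p, minors X p ^ 2

lemma minors_zero {n : ℕ} : minors (0 : Fin n → Fin 2 → ℝ) = 0 := by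
  funext p
  show Matrix.det ((0 : Matrix (Fin n) (Fin 2) ℝ).submatrix p.2.1.1 p.2.2.1) = 0
  rw [Matrix.submatrix_zero]
  exact Matrix.det_zero

lemma sumSq_zero {n : ℕ} : sumSq (0 : Fin n → Fin 2 → ℝ) = 0 := by
  unfold sumSq; rw [minors_zero]; simp

open Classical in
lemma sumSq_strong (n : ℕ) : StronglyPolyconvex (⊤ : ℕ∞) (sumSq : (Fin n → Fin 2 → ℝ) → ℝ) := by
  refine ⟨fun v => ∑ p, v p ^ 2, ⟨1, one_pos, ?_⟩, ?_, fun X => ?_⟩
  · simp only [one_mul, sub_self]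
    exact convexOn_const _ convex_univ
  · exact ContDiff.sum fun p _ => (contDiff_apply ℝ ℝ p).pow 2
  · unfold sumSq
    congr!

open Classical in
lemma sumSq_strict (n : ℕ) : StrictlyPolyconvex (⊤ : ℕ∞) (sumSq : (Fin n → Fin 2 → ℝ) → ℝ) := by
  obtain ⟨g, ⟨c, hc, h1⟩, h2, h3⟩ := sumSq_strong n
  exact ⟨g, strict_of_strong hc h1, h2, h3⟩

lemma sumSq_stacked {n : ℕ} : stacked (sumSq : (Fin n → Fin 2 → ℝ) → ℝ) 0 = 0 := by
  have hmin : IsLocalMin (sumSq : (Fin n → Fin 2 → ℝ) → ℝ) 0 := by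
    apply Eventually.of_forall
    intro X
    rw [sumSq_zero]
    unfold sumSq
    positivity
  have hg : grad (sumSq : (Fin n → Fin 2 → ℝ) → ℝ) 0 = 0 := by
    ext i j
    show fderiv ℝ (sumSq : (Fin n → Fin 2 → ℝ) → ℝ) 0 _ = 0
    rw [hmin.fderiv_eq_zero]
    rfl
  unfold stacked
  rw [hg, sumSq_zero]
  ext i j
  rcases i with i | i | i <;> simp

/-- **Dense failure of `K_R^{rc} = K_R`** in every dimension `n ≥ 10`. -/
theorem result :
    (∀ n : ℕ, 10 ≤ n → ∀ k : ℕ∞, 1 ≤ k → ∀ f₀ : (Fin n → Fin 2 → ℝ) → ℝ,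
      StrictlyPolyconvex k f₀ → ∀ (X₀ : Fin n → Fin 2 → ℝ) (ε : ℝ), 0 < ε →
      ∃ f : (Fin n → Fin 2 → ℝ) → ℝ, StrictlyPolyconvex k f ∧
        (StronglyPolyconvex k f₀ → StronglyPolyconvex k f) ∧
        (∀ X, ε ≤ dist X X₀ → f X = f₀ X) ∧ (∀ X, |f X - f₀ X| ≤ ε) ∧
        (∀ X i j, |grad f X i j - grad f₀ X i j| ≤ ε) ∧
        ∀ R : ℝ, Real.sqrt (∑ i, ∑ j, (stacked f₀ X₀ i j) ^ 2) + ε ≤ R →
          ∃ A, A ∈ rcHull (inclusionSet f ∩ closedBallHS n R) ∧ A ∉ inclusionSet f) ∧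
    (∀ n : ℕ, 10 ≤ n → ∀ R : ℝ, 0 < R →
      ∃ f : (Fin n → Fin 2 → ℝ) → ℝ, StronglyPolyconvex ⊤ f ∧
        (∀ X, R ≤ dist X 0 → f X = ∑ p, minors X p ^ 2) ∧
        ∃ A, A ∈ rcHull (inclusionSet f ∩ closedBallHS n R) ∧ A ∉ inclusionSet f) := by
  refine ⟨fun n hn k hk f₀ hf₀ X₀ ε hε => single hn k hk f₀ hf₀ X₀ ε hε, fun n hn R hR => ?_⟩
  obtain ⟨f, -, h2, h3, -, -, h6⟩ := single hn ⊤ le_top sumSq (sumSq_strict n) 0 R hR
  refine ⟨f, h2 (sumSq_strong n), h3, h6 R ?_⟩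
  rw [sumSq_stacked]
  simp

end Pool.Agent.Results.MP_f3a7de_an.DenseFailure
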