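import Pool.Agent.Y307.PCD.Eve

/-!
# The rank-one convex hull of the planar stationarity inclusion set: failure at every point

In every dimension `n ≥ 10`, every strictly polyconvex function of class `C¹` is a uniform `C¹` limit
of strictly polyconvex functions `f` of class `C¹` such that, for every open set `U` meeting `K_f`,
the rank-one convex hull of `K_f ∩ U` contains points of `U` outside `K_f`. In particular there is one
strictly polyconvex `f` of class `C¹` with `K_R^{rc} ≠ K_R` for every `R > 0`.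

The definitions are in `Pool.Agent.Y307.PCD.Defs`.
-/

set_option autoImplicit false
open Set Filter Topology
open Pool.Agent.Y307.PCD

namespace Pool.Agent.Results.MP_f3a7de_an.EveryPoint

/-- The sum of the squares of all minors. -/
noncomputable def sumSq {n : ℕ} (X : Fin n → Fin 2 → ℝ) : ℝ := ∑ p, minors X p ^ 2

lemma minors_zero {n : ℕ} : minors (0 : Fin n → Fin 2 → ℝ) = 0 := by
  funext p
  show Matrix.det ((0 : Matrix (Fin n) (Fin 2) ℝ).submatrix p.2.1.1 p.2.2.1) = 0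
  rw [Matrix.submatrix_zero]
  exact Matrix.det_zero

lemma sumSq_zero {n : ℕ} : sumSq (0 : Fin n → Fin 2 → ℝ) = 0 := by
  unfold sumSq; rw [minors_zero]; simp

open Classical in
lemma sumSq_strict (n : ℕ) : StrictlyPolyconvex 1 (sumSq : (Fin n → Fin 2 → ℝ) → ℝ) := by
  refine ⟨fun v => ∑ p, v p ^ 2, ?_, ?_, fun X => ?_⟩
  · apply strict_of_strong (c := 1) one_pos
    simp only [one_mul, sub_self]
    exact convexOn_const _ convex_univ
  · exact ContDiff.sum fun p _ => (contDiff_apply ℝ ℝ p).pow 2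
  · unfold sumSq
    congr!

lemma sumSq_stacked {n : ℕ} : stacked (sumSq : (Fin n → Fin 2 → ℝ) → ℝ) 0 = 0 := by
  have hmin : IsLocalMin (sumSq : (Fin n → Fin 2 → ℝ) → ℝ) 0 := by
    apply Eventually.of_forall
    intro X
    rw [sumSq_zero]
    unfold sumSq
    positivity
  have hg : grad (sumSq : (Fin n → Fin 2 → ℝ) → ℝ) 0 = 0 := by
    ext i j
    show fderiv ℝ (sumSq : (Fin n → Fin 2 → ℝ) → ℝ) 0 _ = 0
    rw [hmin.fderiv_eq_zero]
    rfl
  unfold stacked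
  rw [hg, sumSq_zero]
  ext i j
  rcases i with i | i | i <;> simp

lemma open_ball (n : ℕ) (R : ℝ) : IsOpen {P : BigMat n | ∑ i, ∑ j, P i j ^ 2 < R ^ 2} := by
  have hc : Continuous fun P : BigMat n => ∑ i, ∑ j, P i j ^ 2 := by
    refine continuous_finsetSum _ fun i _ => continuous_finsetSum _ fun j _ => Continuous.pow ?_ 2
    exact Continuous.matrix_elem continuous_id i j
  exact isOpen_lt hc continuous_const

/-- **Failure of `K^{rc} = K` at every point of `K_f`** in every dimension `n ≥ 10`. -/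
theorem result :
    (∀ n : ℕ, 10 ≤ n → ∀ f₀ : (Fin n → Fin 2 → ℝ) → ℝ, StrictlyPolyconvex 1 f₀ →
      ∀ F₀ : Set (Fin n → Fin 2 → ℝ), F₀.Finite → ∀ ε : ℝ, 0 < ε →
      ∃ f : (Fin n → Fin 2 → ℝ) → ℝ, StrictlyPolyconvex 1 f ∧ (∀ X, |f X - f₀ X| ≤ ε) ∧
        (∀ X i j, |grad f X i j - grad f₀ X i j| ≤ ε) ∧
        (∀ X ∈ F₀, f X = f₀ X ∧ grad f X = grad f₀ X) ∧
        (∀ U : Set (BigMat n), IsOpen U → (inclusionSet f ∩ U).Nonempty →
          ∃ A, A ∈ U ∧ A ∈ rcHull (inclusionSet f ∩ U) ∧ A ∉ inclusionSet f) ∧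
        ∀ R : ℝ, (∃ P ∈ inclusionSet f, ∑ i, ∑ j, P i j ^ 2 < R ^ 2) →
          ∃ A, A ∈ rcHull (inclusionSet f ∩ closedBallHS n R) ∧ A ∉ inclusionSet f) ∧
    (∀ n : ℕ, 10 ≤ n → ∃ f : (Fin n → Fin 2 → ℝ) → ℝ, StrictlyPolyconvex 1 f ∧
      ∀ R : ℝ, 0 < R →
        ∃ A, A ∈ rcHull (inclusionSet f ∩ closedBallHS n R) ∧ A ∉ inclusionSet f) := by
  have h1 : ∀ n : ℕ, 10 ≤ n → ∀ f₀ : (Fin n → Fin 2 → ℝ) → ℝ, StrictlyPolyconvex 1 f₀ →
      ∀ F₀ : Set (Fin n → Fin 2 → ℝ), F₀.Finite → ∀ ε : ℝ, 0 < ε →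
      ∃ f : (Fin n → Fin 2 → ℝ) → ℝ, StrictlyPolyconvex 1 f ∧ (∀ X, |f X - f₀ X| ≤ ε) ∧
        (∀ X i j, |grad f X i j - grad f₀ X i j| ≤ ε) ∧
        (∀ X ∈ F₀, f X = f₀ X ∧ grad f X = grad f₀ X) ∧
        (∀ U : Set (BigMat n), IsOpen U → (inclusionSet f ∩ U).Nonempty →
          ∃ A, A ∈ U ∧ A ∈ rcHull (inclusionSet f ∩ U) ∧ A ∉ inclusionSet f) ∧
        ∀ R : ℝ, (∃ P ∈ inclusionSet f, ∑ i, ∑ j, P i j ^ 2 < R ^ 2) →
          ∃ A, A ∈ rcHull (inclusionSet f ∩ closedBallHS n R) ∧ A ∉ inclusionSet f := by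
    intro n hn f₀ hf₀ F₀ hF₀ ε hε
    obtain ⟨f, h1, h2, h3, h4, h5⟩ := everywhere hn f₀ hf₀ F₀ hF₀ ε hε
    refine ⟨f, h1, h2, h3, h4, h5, ?_⟩
    rintro R ⟨P, hP, hPR⟩
    obtain ⟨A, -, h6, h7⟩ := h5 _ (open_ball n R) ⟨P, hP, hPR⟩
    refine ⟨A, rcHull_mono ?_ h6, h7⟩
    intro Q hQ
    have h8 : ∑ i, ∑ j, Q i j ^ 2 < R ^ 2 := hQ.2
    exact ⟨hQ.1, h8.le⟩
  refine ⟨h1, fun n hn => ?_⟩
  obtain ⟨f, h2, -, -, h3, -, h4⟩ := h1 n hn sumSq (sumSq_strict n) {0} (finite_singleton 0) 1 one_pos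
  refine ⟨f, h2, fun R hR => h4 R ⟨stacked f 0, ⟨0, rfl⟩, ?_⟩⟩
  obtain ⟨h5, h6⟩ := h3 0 (mem_singleton 0)
  have h7 : stacked f 0 = 0 := by
    rw [← sumSq_stacked]
    unfold stacked
    rw [h5, h6]
  rw [h7]
  simp only [Matrix.zero_apply, ne_eq, OfNat.ofNat_ne_zero, not_false_eq_true, zero_pow,
    Finset.sum_const_zero]
  positivity

end Pool.Agent.Results.MP_f3a7de_an.EveryPoint
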